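import Mathlib

set_option autoImplicit false

namespace Pool.Agent.W_MP_e01c10_h47

/-- An oriented graph on the vertex set `V`: a digraph without loops in which at most one of
`(x, y)`, `(y, x)` is an arc. -/
structure OrientedGraph (V : Type) where
  arc : V → V → Prop
  asymm : ∀ x y, arc x y → ¬ arc y x

variable {V : Type}

/-- Out-degree of a vertex. -/
noncomputable def outDeg (D : OrientedGraph V) (x : V) : ℕ := Nat.card {y : V // D.arc x y}

/-- In-degree of a vertex. -/
noncomputable def inDeg (D : OrientedGraph V) (x : V) : ℕ := Nat.card {y : V // D.arc y x}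

/-- Minimum semi-degree: the least number that is the out-degree or the in-degree of a vertex. -/
noncomputable def minSemiDegree (D : OrientedGraph V) : ℕ :=
  sInf {k : ℕ | ∃ x : V, k = outDeg D x ∨ k = inDeg D x}

/-- `D - S` is strongly connected: any two vertices outside `S` are joined in both directions by
directed walks avoiding `S`. -/
def StronglyConnectedMinus (D : OrientedGraph V) (S : Set V) : Prop :=
  ∀ x y : V, x ∉ S → y ∉ S →
    Relation.ReflTransGen (fun u v => D.arc u v ∧ u ∉ S ∧ v ∉ S) x y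

/-- Strong connectivity of `D`: the least size of a set `S` such that `D - S` is not strongly
connected. -/
noncomputable def connectivity (D : OrientedGraph V) : ℕ :=
  sInf {k : ℕ | ∃ S : Finset V, S.card = k ∧ ¬ StronglyConnectedMinus D (S : Set V)}

/-- `D` contains a directed triangle. -/
def HasTriangle (D : OrientedGraph V) : Prop :=
  ∃ x y z : V, D.arc x y ∧ D.arc y z ∧ D.arc z x

/-- `ψ` is admissible for `r`: every oriented graph with minimum semi-degree `d ≥ 1`, order at most
`r d` and strong connectivity at most `ψ d` contains a directed triangle. -/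
def Admissible (r ψ : ℝ) : Prop :=
  ∀ (V : Type) [Fintype V] (D : OrientedGraph V) (d : ℕ), 1 ≤ d → minSemiDegree D = d →
    (Fintype.card V : ℝ) ≤ r * d → (connectivity D : ℝ) ≤ ψ * d → HasTriangle D

/-- `ψ(r)`: the supremum of the numbers in `(0, 1]` that are admissible for `r`. -/
noncomputable def psi (r : ℝ) : ℝ := sSup {ψ : ℝ | 0 < ψ ∧ ψ ≤ 1 ∧ Admissible r ψ}

/-! ### Circulants -/

/-- the circulant relation on `ZMod (3 k + 1)` with jumps `1, …, k` -/
def circ (k : ℕ) (x y : ZMod (3 * k + 1)) : Prop := 1 ≤ (y - x).val ∧ (y - x).val ≤ k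

lemma dvd_tri {M : ℕ} [NeZero M] (x y z : ZMod M) :
    M ∣ (y - x).val + (z - y).val + (x - z).val := by
  have hsum : (((y - x).val + (z - y).val + (x - z).val : ℕ) : ZMod M) = 0 := by
    push_cast
    rw [ZMod.natCast_zmod_val, ZMod.natCast_zmod_val, ZMod.natCast_zmod_val]
    ring
  rwa [ZMod.natCast_eq_zero_iff] at hsum

lemma dvd_two {M : ℕ} [NeZero M] (x y : ZMod M) :
    M ∣ (y - x).val + (x - y).val := by
  have hsum : (((y - x).val + (x - y).val : ℕ) : ZMod M) = 0 := by
    push_cast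
    rw [ZMod.natCast_zmod_val, ZMod.natCast_zmod_val]
    ring
  rwa [ZMod.natCast_eq_zero_iff] at hsum

lemma circ_asymm (k : ℕ) (x y : ZMod (3 * k + 1)) (h : circ k x y) : ¬ circ k y x := by
  intro h'
  have hle := Nat.le_of_dvd (by have := h.1; omega) (dvd_two x y)
  unfold circ at h h'
  omega

lemma circ_triangle (k : ℕ) (x y z : ZMod (3 * k + 1)) (h1 : circ k x y) (h2 : circ k y z)
    (h3 : circ k z x) : False := by
  have hle := Nat.le_of_dvd (by have := h1.1; omega) (dvd_tri x y z)
  unfold circ at h1 h2 h3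
  omega

lemma card_rng (M lo hi : ℕ) [NeZero M] (h : hi < M) :
    Nat.card {t : ZMod M // lo ≤ t.val ∧ t.val ≤ hi} = hi + 1 - lo := by
  have e : {t : ZMod M // lo ≤ t.val ∧ t.val ≤ hi} ≃ (Finset.Icc lo hi) := by
    refine ⟨fun t => ⟨t.1.val, Finset.mem_Icc.mpr t.2⟩, fun i => ⟨(i.1 : ZMod M), ?_⟩, ?_, ?_⟩
    · have := Finset.mem_Icc.mp i.2
      rw [ZMod.val_natCast, Nat.mod_eq_of_lt (by omega)]
      exact this
    · rintro ⟨t, ht⟩
      apply Subtype.ext
      simp only
      rw [ZMod.natCast_zmod_val]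
    · rintro ⟨i, hi'⟩
      have := Finset.mem_Icc.mp hi'
      apply Subtype.ext
      simp only
      rw [ZMod.val_natCast, Nat.mod_eq_of_lt (by omega)]
  rw [Nat.card_congr e, Nat.card_eq_fintype_card, Fintype.card_coe, Nat.card_Icc]

lemma card_rng_out (M lo hi : ℕ) [NeZero M] (h : hi < M) (x : ZMod M) :
    Nat.card {y : ZMod M // lo ≤ (y - x).val ∧ (y - x).val ≤ hi} = hi + 1 - lo := by
  have e : {y : ZMod M // lo ≤ (y - x).val ∧ (y - x).val ≤ hi} ≃
      {t : ZMod M // lo ≤ t.val ∧ t.val ≤ hi} :=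
    (Equiv.subRight x).subtypeEquiv (fun y => Iff.rfl)
  rw [Nat.card_congr e, card_rng M lo hi h]

lemma card_rng_in (M lo hi : ℕ) [NeZero M] (h : hi < M) (x : ZMod M) :
    Nat.card {y : ZMod M // lo ≤ (x - y).val ∧ (x - y).val ≤ hi} = hi + 1 - lo := by
  have e : {y : ZMod M // lo ≤ (x - y).val ∧ (x - y).val ≤ hi} ≃
      {t : ZMod M // lo ≤ t.val ∧ t.val ≤ hi} :=
    (Equiv.subLeft x).subtypeEquiv (fun y => Iff.rfl)
  rw [Nat.card_congr e, card_rng M lo hi h]

lemma card_circ_out (k : ℕ) (x : ZMod (3 * k + 1)) : Nat.card {y // circ k x y} = k := by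
  have := card_rng_out (3 * k + 1) 1 k (by omega) x
  simpa [circ] using this

lemma card_circ_in (k : ℕ) (x : ZMod (3 * k + 1)) : Nat.card {y // circ k y x} = k := by
  have := card_rng_in (3 * k + 1) 1 k (by omega) x
  simpa [circ] using this

/-! ### Counting in products -/

lemma card_prod_fst {A B : Type} [Finite A] [Finite B] (R : A → Prop) :
    Nat.card {q : A × B // R q.1} = Nat.card {a // R a} * Nat.card B := by
  have e : {q : A × B // R q.1} ≃ {a // R a} × B :=
    ⟨fun q => (⟨q.1.1, q.2⟩, q.1.2), fun q => ⟨(q.1.1, q.2), q.1.2⟩, fun _ => rfl, fun _ => rfl⟩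
  rw [Nat.card_congr e, Nat.card_prod]

lemma card_prod_int {A B : Type} [Finite A] [Finite B] (R : A → Prop) (i : A) (hi : ¬ R i)
    (T : B → Prop) :
    Nat.card {q : A × B // R q.1 ∨ (q.1 = i ∧ T q.2)} =
      Nat.card {a // R a} * Nat.card B + Nat.card {b // T b} := by
  classical
  have e : {q : A × B // R q.1 ∨ (q.1 = i ∧ T q.2)} ≃ ({a // R a} × B) ⊕ {b // T b} := by
    refine ⟨fun q => if h : R q.1.1 then Sum.inl (⟨q.1.1, h⟩, q.1.2)
        else Sum.inr ⟨q.1.2, (q.2.resolve_left h).2⟩,
      fun c => Sum.elim (fun p => ⟨(p.1.1, p.2), Or.inl p.1.2⟩)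
        (fun b => ⟨(i, b.1), Or.inr ⟨rfl, b.2⟩⟩) c, ?_, ?_⟩
    · rintro ⟨⟨a, b⟩, h⟩
      by_cases hR : R a
      · simp [hR]
      · have h1 := h.resolve_left hR
        simp only at h1
        obtain ⟨rfl, h2⟩ := h1
        simp [hR]
    · rintro (⟨⟨a, ha⟩, b⟩ | ⟨b, hb⟩)
      · simp [ha]
      · simp [hi]
  rw [Nat.card_congr e, Nat.card_sum, Nat.card_prod]

lemma card_split {α β : Type} [Finite α] [Finite β] (p : α ⊕ β → Prop) :
    Nat.card {c // p c} = Nat.card {a // p (Sum.inl a)} + Nat.card {b // p (Sum.inr b)} := by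
  rw [Nat.card_congr Equiv.subtypeSum, Nat.card_sum]

lemma card_false {α : Type} : Nat.card {_a : α // False} = 0 := by
  simp

lemma card_true {α : Type} : Nat.card {_a : α // True} = Nat.card α :=
  Nat.card_congr (Equiv.subtypeUnivEquiv fun _ => trivial)

/-! ### The construction -/

/-- `3 m + 1` blocks, each with `3 a + 1` vertices -/
abbrev Blk (m a : ℕ) : Type := ZMod (3 * m + 1) × ZMod (3 * a + 1)

/-- the vertex set of one side of the construction -/
abbrev Side (m a b : ℕ) : Type := Blk m a ⊕ Blk m b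

/-- arcs inside the side `A` of the construction; `m = l + u` -/
def sarc (l u a b : ℕ) : Side (l + u) a b → Side (l + u) a b → Prop
  | Sum.inl x, Sum.inl y =>
      (1 ≤ (y.1 - x.1).val ∧ (y.1 - x.1).val ≤ l + u) ∨ (y.1 = x.1 ∧ circ a x.2 y.2)
  | Sum.inl x, Sum.inr y => 0 ≤ (y.1 - x.1).val ∧ (y.1 - x.1).val ≤ l + 2 * u
  | Sum.inr x, Sum.inl y => 1 ≤ (y.1 - x.1).val ∧ (y.1 - x.1).val ≤ l
  | Sum.inr x, Sum.inr y =>
      (1 ≤ (y.1 - x.1).val ∧ (y.1 - x.1).val ≤ l + u) ∨ (y.1 = x.1 ∧ circ b x.2 y.2)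

/-- vertices of the first kind -/
def isP {m a b : ℕ} : Side m a b → Prop
  | Sum.inl _ => True
  | Sum.inr _ => False

/-- vertex set of the construction: a separator and two sides -/
abbrev W (l u a b s : ℕ) : Type := Fin s ⊕ (Side (l + u) a b ⊕ Side (l + u) a b)

/-- arcs of the construction -/
def warc (l u a b s : ℕ) : W l u a b s → W l u a b s → Prop
  | Sum.inl _, Sum.inl _ => False
  | Sum.inl _, Sum.inr (Sum.inl y) => isP y
  | Sum.inl _, Sum.inr (Sum.inr _) => False
  | Sum.inr (Sum.inl _), Sum.inl _ => False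
  | Sum.inr (Sum.inr x), Sum.inl _ => isP x
  | Sum.inr (Sum.inl x), Sum.inr (Sum.inl y) => sarc l u a b x y
  | Sum.inr (Sum.inr x), Sum.inr (Sum.inr y) => sarc l u a b y x
  | Sum.inr (Sum.inl x), Sum.inr (Sum.inr y) => ¬ isP x ∨ ¬ isP y
  | Sum.inr (Sum.inr _), Sum.inr (Sum.inl _) => False

lemma sarc_asymm (l u a b : ℕ) (x y : Side (l + u) a b) (h : sarc l u a b x y) :
    ¬ sarc l u a b y x := by
  intro h'
  rcases x with x | x <;> rcases y with y | y <;> unfold sarc at h h'
  · rcases h with h | h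
    · have hle := Nat.le_of_dvd (by have := h.1; omega) (dvd_two x.1 y.1)
      rcases h' with h' | h'
      · omega
      · rw [h'.1, sub_self, ZMod.val_zero] at h
        omega
    · rcases h' with h' | h'
      · rw [h.1, sub_self, ZMod.val_zero] at h'
        omega
      · exact circ_asymm a _ _ h.2 h'.2
  · have hle := Nat.le_of_dvd (by have := h'.1; omega) (dvd_two x.1 y.1)
    omega
  · have hle := Nat.le_of_dvd (by have := h.1; omega) (dvd_two x.1 y.1)
    omega
  · rcases h with h | h
    · have hle := Nat.le_of_dvd (by have := h.1; omega) (dvd_two x.1 y.1)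
      rcases h' with h' | h'
      · omega
      · rw [h'.1, sub_self, ZMod.val_zero] at h
        omega
    · rcases h' with h' | h'
      · rw [h.1, sub_self, ZMod.val_zero] at h'
        omega
      · exact circ_asymm b _ _ h.2 h'.2

/-- an arc between vertices of one kind: the offset is between `1` and `m`, or it is `0` and the
arc is an arc of the circulant -/
lemma same_cases {m a : ℕ} (x y : Blk m a)
    (h : (1 ≤ (y.1 - x.1).val ∧ (y.1 - x.1).val ≤ m) ∨ (y.1 = x.1 ∧ circ a x.2 y.2)) :
    (y.1 - x.1).val ≤ m ∧ ((y.1 - x.1).val = 0 → circ a x.2 y.2) := by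
  rcases h with h | h
  · exact ⟨h.2, fun h0 => by omega⟩
  · rw [h.1, sub_self, ZMod.val_zero]
    exact ⟨Nat.zero_le _, fun _ => h.2⟩

lemma same_triangle {m a : ℕ} (x y z : Blk m a)
    (h1 : (1 ≤ (y.1 - x.1).val ∧ (y.1 - x.1).val ≤ m) ∨ (y.1 = x.1 ∧ circ a x.2 y.2))
    (h2 : (1 ≤ (z.1 - y.1).val ∧ (z.1 - y.1).val ≤ m) ∨ (z.1 = y.1 ∧ circ a y.2 z.2))
    (h3 : (1 ≤ (x.1 - z.1).val ∧ (x.1 - z.1).val ≤ m) ∨ (x.1 = z.1 ∧ circ a z.2 x.2)) :
    False := by
  have k1 := same_cases x y h1
  have k2 := same_cases y z h2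
  have k3 := same_cases z x h3
  have h0 := Nat.eq_zero_of_dvd_of_lt (dvd_tri x.1 y.1 z.1) (by omega)
  exact circ_triangle a _ _ _ (k1.2 (by omega)) (k2.2 (by omega)) (k3.2 (by omega))

lemma sarc_triangle (l u a b : ℕ) (x y z : Side (l + u) a b) (h1 : sarc l u a b x y)
    (h2 : sarc l u a b y z) (h3 : sarc l u a b z x) : False := by
  rcases x with x | x <;> rcases y with y | y <;> rcases z with z | z <;>
    unfold sarc at h1 h2 h3
  · exact same_triangle x y z h1 h2 h3
  · have k1 := same_cases x y h1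
    have hle := Nat.le_of_dvd (by have := h3.1; omega) (dvd_tri x.1 y.1 z.1)
    omega
  · have k3 := same_cases z x h3
    have hle := Nat.le_of_dvd (by have := h2.1; omega) (dvd_tri x.1 y.1 z.1)
    omega
  · have k2 := same_cases y z h2
    have hle := Nat.le_of_dvd (by have := h3.1; omega) (dvd_tri x.1 y.1 z.1)
    omega
  · have k2 := same_cases y z h2
    have hle := Nat.le_of_dvd (by have := h1.1; omega) (dvd_tri x.1 y.1 z.1)
    omega
  · have k3 := same_cases z x h3
    have hle := Nat.le_of_dvd (by have := h1.1; omega) (dvd_tri x.1 y.1 z.1)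
    omega
  · have k1 := same_cases x y h1
    have hle := Nat.le_of_dvd (by have := h2.1; omega) (dvd_tri x.1 y.1 z.1)
    omega
  · exact same_triangle x y z h1 h2 h3

/-- the construction -/
def G (l u a b s : ℕ) : OrientedGraph (W l u a b s) where
  arc := warc l u a b s
  asymm := by
    rintro (x | x | x) (y | y | y) h h' <;> unfold warc at h h'
    · exact h
    · exact h'
    · exact h
    · exact h
    · exact sarc_asymm l u a b x y h h'
    · exact h'
    · exact h'
    · exact h
    · exact sarc_asymm l u a b y x h h'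

lemma G_no_triangle (l u a b s : ℕ) : ¬ HasTriangle (G l u a b s) := by
  rintro ⟨x, y, z, h1, h2, h3⟩
  change warc l u a b s x y at h1
  change warc l u a b s y z at h2
  change warc l u a b s z x at h3
  rcases x with x | x | x <;> rcases y with y | y | y <;> rcases z with z | z | z <;>
    unfold warc at h1 h2 h3 <;> first
    | exact h1
    | exact h2
    | exact h3
    | exact sarc_triangle l u a b x y z h1 h2 h3
    | exact sarc_triangle l u a b x z y h3 h2 h1
    | (rcases h1 with h | h <;> first | exact h h2 | exact h h3)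
    | (rcases h2 with h | h <;> first | exact h h1 | exact h h3)
    | (rcases h3 with h | h <;> first | exact h h1 | exact h h2)


/-! ### Degrees -/

lemma card_W_split (l u a b s : ℕ) (p : W l u a b s → Prop) :
    Nat.card {c // p c} = Nat.card {f : Fin s // p (Sum.inl f)} +
      ((Nat.card {x : Blk (l + u) a // p (Sum.inr (Sum.inl (Sum.inl x)))} +
        Nat.card {x : Blk (l + u) b // p (Sum.inr (Sum.inl (Sum.inr x)))}) +
      (Nat.card {x : Blk (l + u) a // p (Sum.inr (Sum.inr (Sum.inl x)))} +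
        Nat.card {x : Blk (l + u) b // p (Sum.inr (Sum.inr (Sum.inr x)))})) := by
  rw [card_split, card_split (fun c => p (Sum.inr c)),
    card_split (fun c => p (Sum.inr (Sum.inl c))), card_split (fun c => p (Sum.inr (Sum.inr c)))]

lemma card_blk (m a : ℕ) : Nat.card {_x : Blk m a // True} = (3 * m + 1) * (3 * a + 1) := by
  rw [card_true, Nat.card_prod, Nat.card_zmod, Nat.card_zmod]

lemma blk_out (m a lo hi : ℕ) (h : hi < 3 * m + 1) (i : ZMod (3 * m + 1)) :
    Nat.card {y : Blk m a // lo ≤ (y.1 - i).val ∧ (y.1 - i).val ≤ hi} =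
      (hi + 1 - lo) * (3 * a + 1) := by
  rw [card_prod_fst (fun z : ZMod (3 * m + 1) => lo ≤ (z - i).val ∧ (z - i).val ≤ hi),
    card_rng_out _ lo hi h, Nat.card_zmod]

lemma blk_in (m a lo hi : ℕ) (h : hi < 3 * m + 1) (i : ZMod (3 * m + 1)) :
    Nat.card {y : Blk m a // lo ≤ (i - y.1).val ∧ (i - y.1).val ≤ hi} =
      (hi + 1 - lo) * (3 * a + 1) := by
  rw [card_prod_fst (fun z : ZMod (3 * m + 1) => lo ≤ (i - z).val ∧ (i - z).val ≤ hi),
    card_rng_in _ lo hi h, Nat.card_zmod]

lemma blk_self_out (m a : ℕ) (x : Blk m a) :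
    Nat.card {y : Blk m a // (1 ≤ (y.1 - x.1).val ∧ (y.1 - x.1).val ≤ m) ∨
      (y.1 = x.1 ∧ circ a x.2 y.2)} = m * (3 * a + 1) + a := by
  rw [card_prod_int (fun z : ZMod (3 * m + 1) => 1 ≤ (z - x.1).val ∧ (z - x.1).val ≤ m) x.1
    (by simp) (fun w => circ a x.2 w), card_rng_out _ 1 m (by omega), Nat.card_zmod,
    card_circ_out]
  simp

lemma blk_self_in (m a : ℕ) (x : Blk m a) :
    Nat.card {y : Blk m a // (1 ≤ (x.1 - y.1).val ∧ (x.1 - y.1).val ≤ m) ∨
      (x.1 = y.1 ∧ circ a y.2 x.2)} = m * (3 * a + 1) + a := by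
  have h := card_prod_int (A := ZMod (3 * m + 1)) (B := ZMod (3 * a + 1))
    (fun z : ZMod (3 * m + 1) => 1 ≤ (x.1 - z).val ∧ (x.1 - z).val ≤ m) x.1
    (by simp) (fun w => circ a w x.2)
  rw [card_rng_in _ 1 m (by omega), Nat.card_zmod, card_circ_in] at h
  simp only [Nat.add_sub_cancel] at h
  rw [← h]
  apply Nat.card_congr
  apply Equiv.subtypeEquivRight
  intro q
  rw [eq_comm (a := x.1) (b := q.1)]

/-- the value of the minimum semi-degree -/
def dval (l u a b s : ℕ) : ℕ := (l + u) * (3 * a + 1) + a + l * (3 * b + 1) + s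

lemma outDeg_S (l u a b s : ℕ) (f : Fin s) :
    outDeg (G l u a b s) (Sum.inl f) = (3 * (l + u) + 1) * (3 * a + 1) := by
  unfold outDeg
  rw [card_W_split]
  have e1 : Nat.card {f' : Fin s // (G l u a b s).arc (Sum.inl f) (Sum.inl f')} = 0 := card_false
  have e2 : Nat.card {x : Blk (l + u) a //
      (G l u a b s).arc (Sum.inl f) (Sum.inr (Sum.inl (Sum.inl x)))} = _ := card_blk (l + u) a
  have e3 : Nat.card {x : Blk (l + u) b //
      (G l u a b s).arc (Sum.inl f) (Sum.inr (Sum.inl (Sum.inr x)))} = 0 := card_false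
  have e4 : Nat.card {x : Blk (l + u) a //
      (G l u a b s).arc (Sum.inl f) (Sum.inr (Sum.inr (Sum.inl x)))} = 0 := card_false
  have e5 : Nat.card {x : Blk (l + u) b //
      (G l u a b s).arc (Sum.inl f) (Sum.inr (Sum.inr (Sum.inr x)))} = 0 := card_false
  rw [e1, e2, e3, e4, e5]
  ring

lemma inDeg_S (l u a b s : ℕ) (f : Fin s) :
    inDeg (G l u a b s) (Sum.inl f) = (3 * (l + u) + 1) * (3 * a + 1) := by
  unfold inDeg
  rw [card_W_split]
  have e1 : Nat.card {f' : Fin s // (G l u a b s).arc (Sum.inl f') (Sum.inl f)} = 0 := card_false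
  have e2 : Nat.card {x : Blk (l + u) a //
      (G l u a b s).arc (Sum.inr (Sum.inl (Sum.inl x))) (Sum.inl f)} = 0 := card_false
  have e3 : Nat.card {x : Blk (l + u) b //
      (G l u a b s).arc (Sum.inr (Sum.inl (Sum.inr x))) (Sum.inl f)} = 0 := card_false
  have e4 : Nat.card {x : Blk (l + u) a //
      (G l u a b s).arc (Sum.inr (Sum.inr (Sum.inl x))) (Sum.inl f)} = _ := card_blk (l + u) a
  have e5 : Nat.card {x : Blk (l + u) b //
      (G l u a b s).arc (Sum.inr (Sum.inr (Sum.inr x))) (Sum.inl f)} = 0 := card_false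
  rw [e1, e2, e3, e4, e5]
  ring

/-- number of out-neighbours on the own side of a vertex of the first kind -/
lemma side_out_P (l u a b : ℕ) (x : Blk (l + u) a) :
    Nat.card {y : Blk (l + u) a // sarc l u a b (Sum.inl x) (Sum.inl y)} +
      Nat.card {y : Blk (l + u) b // sarc l u a b (Sum.inl x) (Sum.inr y)} =
      ((l + u) * (3 * a + 1) + a) + (l + 2 * u + 1) * (3 * b + 1) := by
  have e2 : Nat.card {y : Blk (l + u) a // sarc l u a b (Sum.inl x) (Sum.inl y)} = _ :=
    blk_self_out (l + u) a x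
  have e3 : Nat.card {y : Blk (l + u) b // sarc l u a b (Sum.inl x) (Sum.inr y)} = _ :=
    blk_out (l + u) b 0 (l + 2 * u) (by omega) x.1
  rw [e2, e3, Nat.sub_zero]

lemma side_in_P (l u a b : ℕ) (x : Blk (l + u) a) :
    Nat.card {y : Blk (l + u) a // sarc l u a b (Sum.inl y) (Sum.inl x)} +
      Nat.card {y : Blk (l + u) b // sarc l u a b (Sum.inr y) (Sum.inl x)} =
      ((l + u) * (3 * a + 1) + a) + l * (3 * b + 1) := by
  have e2 : Nat.card {y : Blk (l + u) a // sarc l u a b (Sum.inl y) (Sum.inl x)} = _ :=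
    blk_self_in (l + u) a x
  have e3 : Nat.card {y : Blk (l + u) b // sarc l u a b (Sum.inr y) (Sum.inl x)} = _ :=
    blk_in (l + u) b 1 l (by omega) x.1
  rw [e2, e3, Nat.add_sub_cancel]

lemma side_in_Q (l u a b : ℕ) (x : Blk (l + u) b) :
    Nat.card {y : Blk (l + u) a // sarc l u a b (Sum.inl y) (Sum.inr x)} +
      Nat.card {y : Blk (l + u) b // sarc l u a b (Sum.inr y) (Sum.inr x)} =
      (l + 2 * u + 1) * (3 * a + 1) + ((l + u) * (3 * b + 1) + b) := by
  have e2 : Nat.card {y : Blk (l + u) a // sarc l u a b (Sum.inl y) (Sum.inr x)} = _ :=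
    blk_in (l + u) a 0 (l + 2 * u) (by omega) x.1
  have e3 : Nat.card {y : Blk (l + u) b // sarc l u a b (Sum.inr y) (Sum.inr x)} = _ :=
    blk_self_in (l + u) b x
  rw [e2, e3, Nat.sub_zero]

/-- a lower bound for a number of neighbours from the numbers on the two sides -/
lemma card_W_ge (l u a b s : ℕ) (p : W l u a b s → Prop) (n0 n1 n2 n3 n4 : ℕ)
    (h0 : n0 ≤ Nat.card {f : Fin s // p (Sum.inl f)})
    (h1 : n1 + n2 ≤ Nat.card {x : Blk (l + u) a // p (Sum.inr (Sum.inl (Sum.inl x)))} +
        Nat.card {x : Blk (l + u) b // p (Sum.inr (Sum.inl (Sum.inr x)))})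
    (h2 : n3 + n4 ≤ Nat.card {x : Blk (l + u) a // p (Sum.inr (Sum.inr (Sum.inl x)))} +
        Nat.card {x : Blk (l + u) b // p (Sum.inr (Sum.inr (Sum.inr x)))}) :
    n0 + n1 + n2 + n3 + n4 ≤ Nat.card {c // p c} := by
  rw [card_W_split]
  omega

lemma deg_ge (l u a b s : ℕ) (h1 : s ≤ (3 * l + 5 * u + 2) * (3 * b + 1))
    (h2 : dval l u a b s ≤ (l + 2 * u + 1) * (3 * a + 1) + ((l + u) * (3 * b + 1) + b))
    (h3 : dval l u a b s ≤ (3 * (l + u) + 1) * (3 * a + 1)) (v : W l u a b s) :
    dval l u a b s ≤ outDeg (G l u a b s) v ∧ dval l u a b s ≤ inDeg (G l u a b s) v := by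
  have hS : Nat.card {_f : Fin s // True} = s := by rw [card_true, Nat.card_fin]
  have hA := card_blk (l + u) a
  have hB := card_blk (l + u) b
  -- the out-degree of a vertex of the first kind on side `A`
  have h4 : dval l u a b s ≤
      ((l + u) * (3 * a + 1) + a) + (l + 2 * u + 1) * (3 * b + 1) +
        (3 * (l + u) + 1) * (3 * b + 1) := by
    unfold dval
    nlinarith
  rcases v with f | (x | x) | (x | x)
  · rw [outDeg_S, inDeg_S]
    exact ⟨h3, h3⟩
  · constructor
    · unfold outDeg
      rw [card_W_split]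
      have e1 : Nat.card {x' : Blk (l + u) a // (G l u a b s).arc (Sum.inr (Sum.inl (Sum.inl x)))
            (Sum.inr (Sum.inl (Sum.inl x')))} +
          Nat.card {x' : Blk (l + u) b // (G l u a b s).arc (Sum.inr (Sum.inl (Sum.inl x)))
            (Sum.inr (Sum.inl (Sum.inr x')))} = _ := side_out_P l u a b x
      have e2 : Nat.card {x' : Blk (l + u) b // (G l u a b s).arc (Sum.inr (Sum.inl (Sum.inl x)))
            (Sum.inr (Sum.inr (Sum.inr x')))} = (3 * (l + u) + 1) * (3 * b + 1) := by
        rw [← hB]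
        apply Nat.card_congr
        apply Equiv.subtypeEquivRight
        intro q
        exact ⟨fun _ => trivial, fun _ => Or.inr id⟩
      rw [e1, e2]
      omega
    · unfold inDeg
      rw [card_W_split]
      have e1 : Nat.card {x' : Blk (l + u) a // (G l u a b s).arc
            (Sum.inr (Sum.inl (Sum.inl x'))) (Sum.inr (Sum.inl (Sum.inl x)))} +
          Nat.card {x' : Blk (l + u) b // (G l u a b s).arc
            (Sum.inr (Sum.inl (Sum.inr x'))) (Sum.inr (Sum.inl (Sum.inl x)))} = _ :=
        side_in_P l u a b x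
      have e2 : Nat.card {f : Fin s // (G l u a b s).arc (Sum.inl f)
            (Sum.inr (Sum.inl (Sum.inl x)))} = _ := hS
      rw [e1, e2]
      unfold dval
      omega
  · constructor
    · unfold outDeg
      rw [card_W_split]
      have e2 : Nat.card {x' : Blk (l + u) a // (G l u a b s).arc (Sum.inr (Sum.inl (Sum.inr x)))
            (Sum.inr (Sum.inr (Sum.inl x')))} = (3 * (l + u) + 1) * (3 * a + 1) := by
        rw [← hA]
        apply Nat.card_congr
        apply Equiv.subtypeEquivRight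
        intro q
        exact ⟨fun _ => trivial, fun _ => Or.inl id⟩
      rw [e2]
      omega
    · unfold inDeg
      rw [card_W_split]
      have e1 : Nat.card {x' : Blk (l + u) a // (G l u a b s).arc
            (Sum.inr (Sum.inl (Sum.inl x'))) (Sum.inr (Sum.inl (Sum.inr x)))} +
          Nat.card {x' : Blk (l + u) b // (G l u a b s).arc
            (Sum.inr (Sum.inl (Sum.inr x'))) (Sum.inr (Sum.inl (Sum.inr x)))} = _ :=
        side_in_Q l u a b x
      rw [e1]
      omega
  · constructor
    · unfold outDeg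
      rw [card_W_split]
      have e1 : Nat.card {x' : Blk (l + u) a // (G l u a b s).arc
            (Sum.inr (Sum.inr (Sum.inl x))) (Sum.inr (Sum.inr (Sum.inl x')))} +
          Nat.card {x' : Blk (l + u) b // (G l u a b s).arc
            (Sum.inr (Sum.inr (Sum.inl x))) (Sum.inr (Sum.inr (Sum.inr x')))} = _ :=
        side_in_P l u a b x
      have e2 : Nat.card {f : Fin s // (G l u a b s).arc
            (Sum.inr (Sum.inr (Sum.inl x))) (Sum.inl f)} = _ := hS
      rw [e1, e2]
      unfold dval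
      omega
    · unfold inDeg
      rw [card_W_split]
      have e1 : Nat.card {x' : Blk (l + u) a // (G l u a b s).arc
            (Sum.inr (Sum.inr (Sum.inl x'))) (Sum.inr (Sum.inr (Sum.inl x)))} +
          Nat.card {x' : Blk (l + u) b // (G l u a b s).arc
            (Sum.inr (Sum.inr (Sum.inr x'))) (Sum.inr (Sum.inr (Sum.inl x)))} = _ :=
        side_out_P l u a b x
      have e2 : Nat.card {x' : Blk (l + u) b // (G l u a b s).arc
            (Sum.inr (Sum.inl (Sum.inr x'))) (Sum.inr (Sum.inr (Sum.inl x)))} =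
            (3 * (l + u) + 1) * (3 * b + 1) := by
        rw [← hB]
        apply Nat.card_congr
        apply Equiv.subtypeEquivRight
        intro q
        exact ⟨fun _ => trivial, fun _ => Or.inl id⟩
      rw [e1, e2]
      omega
  · constructor
    · unfold outDeg
      rw [card_W_split]
      have e1 : Nat.card {x' : Blk (l + u) a // (G l u a b s).arc
            (Sum.inr (Sum.inr (Sum.inr x))) (Sum.inr (Sum.inr (Sum.inl x')))} +
          Nat.card {x' : Blk (l + u) b // (G l u a b s).arc
            (Sum.inr (Sum.inr (Sum.inr x))) (Sum.inr (Sum.inr (Sum.inr x')))} = _ :=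
        side_in_Q l u a b x
      rw [e1]
      omega
    · unfold inDeg
      rw [card_W_split]
      have e2 : Nat.card {x' : Blk (l + u) a // (G l u a b s).arc
            (Sum.inr (Sum.inl (Sum.inl x'))) (Sum.inr (Sum.inr (Sum.inr x)))} =
            (3 * (l + u) + 1) * (3 * a + 1) := by
        rw [← hA]
        apply Nat.card_congr
        apply Equiv.subtypeEquivRight
        intro q
        exact ⟨fun _ => trivial, fun _ => Or.inr id⟩
      rw [e2]
      omega

lemma le_minSemiDegree (l u a b s : ℕ) (h1 : s ≤ (3 * l + 5 * u + 2) * (3 * b + 1))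
    (h2 : dval l u a b s ≤ (l + 2 * u + 1) * (3 * a + 1) + ((l + u) * (3 * b + 1) + b))
    (h3 : dval l u a b s ≤ (3 * (l + u) + 1) * (3 * a + 1)) :
    dval l u a b s ≤ minSemiDegree (G l u a b s) := by
  unfold minSemiDegree
  apply le_csInf
  · exact ⟨_, Sum.inr (Sum.inl (Sum.inl (0, 0))), Or.inl rfl⟩
  · rintro k ⟨v, hv⟩
    have := deg_ge l u a b s h1 h2 h3 v
    rcases hv with hv | hv <;> omega

lemma connectivity_G_le (l u a b s : ℕ) : connectivity (G l u a b s) ≤ s := by
  classical
  unfold connectivity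
  apply Nat.sInf_le
  let S : Finset (W l u a b s) := Finset.univ.image (fun x : Fin s => Sum.inl x)
  refine ⟨S, ?_, ?_⟩
  · rw [Finset.card_image_of_injective _ Sum.inl_injective, Finset.card_univ, Fintype.card_fin]
  · intro hcon
    have hmem : ∀ w : W l u a b s, w ∈ (S : Set (W l u a b s)) ↔ ∃ x, w = Sum.inl x := by
      intro w
      simp only [S, Finset.coe_image, Finset.coe_univ, Set.image_univ, Set.mem_range]
      exact ⟨fun ⟨x, hx⟩ => ⟨x, hx.symm⟩, fun ⟨x, hx⟩ => ⟨x, hx.symm⟩⟩
    have h := hcon (Sum.inr (Sum.inr (Sum.inl (0, 0)))) (Sum.inr (Sum.inl (Sum.inl (0, 0))))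
      (by rw [hmem]; simp) (by rw [hmem]; simp)
    have hinv : ∀ w : W l u a b s, Relation.ReflTransGen
        (fun p q => (G l u a b s).arc p q ∧ p ∉ (S : Set (W l u a b s)) ∧
          q ∉ (S : Set (W l u a b s)))
        (Sum.inr (Sum.inr (Sum.inl (0, 0)))) w → ∃ x, w = Sum.inr (Sum.inr x) := by
      intro w hw
      induction hw with
      | refl => exact ⟨_, rfl⟩
      | tail _ hstep ih =>
        obtain ⟨x, rfl⟩ := ih
        rename_i w' _
        obtain ⟨harc, _, hnot⟩ := hstep
        rcases w' with y | y | y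
        · exact absurd ((hmem _).mpr ⟨y, rfl⟩) hnot
        · exact absurd harc id
        · exact ⟨y, rfl⟩
    obtain ⟨x, hx⟩ := hinv _ h
    simp at hx

lemma card_W (l u a b s : ℕ) : Fintype.card (W l u a b s) =
    s + 2 * ((3 * (l + u) + 1) * (3 * a + 1) + (3 * (l + u) + 1) * (3 * b + 1)) := by
  simp only [W, Fintype.card_sum, Fintype.card_prod, ZMod.card, Fintype.card_fin]
  ring

/-- the parameters of the construction give non-admissibility -/
theorem not_admissible_of_params (l u a b s : ℕ) (r ψ : ℝ)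
    (h1 : s ≤ (3 * l + 5 * u + 2) * (3 * b + 1))
    (h2 : dval l u a b s ≤ (l + 2 * u + 1) * (3 * a + 1) + ((l + u) * (3 * b + 1) + b))
    (h3 : dval l u a b s ≤ (3 * (l + u) + 1) * (3 * a + 1))
    (hr : 0 ≤ r) (hψ : 0 ≤ ψ) (hpos : 1 ≤ dval l u a b s)
    (hn : (s : ℝ) + 2 * ((3 * (l + u) + 1) * (3 * a + 1) + (3 * (l + u) + 1) * (3 * b + 1)) ≤
      r * dval l u a b s)
    (hk : (s : ℝ) ≤ ψ * dval l u a b s) : ¬ Admissible r ψ := by
  intro hadm
  have hd := le_minSemiDegree l u a b s h1 h2 h3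
  have hd' : (dval l u a b s : ℝ) ≤ minSemiDegree (G l u a b s) := by exact_mod_cast hd
  apply G_no_triangle l u a b s
  apply hadm (W l u a b s) (G l u a b s) (minSemiDegree (G l u a b s)) (hpos.trans hd) rfl
  · rw [card_W]
    push_cast
    exact hn.trans (mul_le_mul_of_nonneg_left hd' hr)
  · have h := connectivity_G_le l u a b s
    have h' : (connectivity (G l u a b s) : ℝ) ≤ s := by exact_mod_cast h
    exact h'.trans (hk.trans (mul_le_mul_of_nonneg_left hd' hψ))

end Pool.Agent.W_MP_e01c10_h47
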